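import Pool.Agent.Helper19.Germ.Expand

/-! Gluing permutations of `ℝ` with disjoint supports (request R8 of helper19, MP_91c48b_an). -/

open Filter Topology Set

namespace Pool.Agent.Germ

theorem perm_self_inv {α : Type*} (f : Equiv.Perm α) (x : α) : f (f⁻¹ x) = x :=
  f.apply_symm_apply x

theorem perm_inv_self {α : Type*} (f : Equiv.Perm α) (x : α) : f⁻¹ (f x) = x :=
  f.symm_apply_apply x

/-- conjugation by the dilation of factor `lam` -/
noncomputable def cj (lam : ℝ) (h : lam ≠ 0) (f : Equiv.Perm ℝ) : Equiv.Perm ℝ :=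
  Dil lam h * f * (Dil lam h)⁻¹

theorem cj_apply (lam : ℝ) (h : lam ≠ 0) (f : Equiv.Perm ℝ) (x : ℝ) :
    cj lam h f x = lam * f (x / lam) := by
  rw [cj, Equiv.Perm.mul_apply, Equiv.Perm.mul_apply, Dil_inv_apply, Dil_apply]

/-- the data condition for gluing: `K i` pairwise disjoint, `f i` is the identity off `K i` -/
def Glb {ι : Type*} (K : ι → Set ℝ) (f : ι → Equiv.Perm ℝ) : Prop :=
  (∀ i j x, x ∈ K i → x ∈ K j → i = j) ∧ ∀ i, ∀ x, x ∉ K i → f i x = x

open Classical in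
/-- glued function -/
noncomputable def glueFun {ι : Type*} (K : ι → Set ℝ) (f : ι → Equiv.Perm ℝ) (x : ℝ) : ℝ :=
  if h : ∃ i, x ∈ K i then f h.choose x else x

theorem glueFun_mem {ι : Type*} {K : ι → Set ℝ} {f : ι → Equiv.Perm ℝ}
    (hd : ∀ i j x, x ∈ K i → x ∈ K j → i = j) {i : ι} {x : ℝ} (hx : x ∈ K i) :
    glueFun K f x = f i x := by
  have h : ∃ i, x ∈ K i := ⟨i, hx⟩
  rw [glueFun, dif_pos h, hd _ _ x h.choose_spec hx]

theorem glueFun_not_mem {ι : Type*} {K : ι → Set ℝ} {f : ι → Equiv.Perm ℝ} {x : ℝ}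
    (hx : ∀ i, x ∉ K i) : glueFun K f x = x := by
  have h : ¬ ∃ i, x ∈ K i := fun ⟨i, hi⟩ => hx i hi
  rw [glueFun, dif_neg h]

theorem perm_maps {K : Set ℝ} {f : Equiv.Perm ℝ} (hf : ∀ x, x ∉ K → f x = x) {x : ℝ}
    (hx : x ∈ K) : f x ∈ K := by
  by_contra h
  have h1 := f.injective (hf _ h)
  rw [h1] at h
  exact h hx

theorem perm_inv_fix {K : Set ℝ} {f : Equiv.Perm ℝ} (hf : ∀ x, x ∉ K → f x = x) {x : ℝ}
    (hx : x ∉ K) : f⁻¹ x = x := by
  rw [Equiv.Perm.inv_eq_iff_eq]; exact (hf x hx).symm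

/-- G1: gluing permutations -/
theorem glue_exists {ι : Type*} (K : ι → Set ℝ) (f : ι → Equiv.Perm ℝ) (h : Glb K f) :
    ∃ P : Equiv.Perm ℝ, (∀ x, P x = glueFun K f x) ∧ (∀ i, ∀ x ∈ K i, P x = f i x ∧ P x ∈ K i) ∧
      (∀ x, (∀ i, x ∉ K i) → P x = x) := by
  obtain ⟨hd, hf⟩ := h
  refine ⟨⟨glueFun K f, glueFun K (fun i => (f i)⁻¹), ?_, ?_⟩, fun _ => rfl, ?_, ?_⟩
  · intro x
    by_cases hx : ∃ i, x ∈ K i
    · obtain ⟨i, hi⟩ := hx
      rw [glueFun_mem hd hi, glueFun_mem hd (perm_maps (hf i) hi), perm_inv_self]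
    · push Not at hx
      rw [glueFun_not_mem hx, glueFun_not_mem hx]
  · intro x
    by_cases hx : ∃ i, x ∈ K i
    · obtain ⟨i, hi⟩ := hx
      have h1 : (f i)⁻¹ x ∈ K i := perm_maps (fun y hy => perm_inv_fix (hf i) hy) hi
      rw [glueFun_mem hd hi, glueFun_mem hd h1, perm_self_inv]
    · push Not at hx
      rw [glueFun_not_mem hx, glueFun_not_mem hx]
  · intro i x hx
    have h1 : glueFun K f x = f i x := glueFun_mem hd hx
    exact ⟨h1, by show glueFun K f x ∈ K i; rw [h1]; exact perm_maps (hf i) hx⟩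
  · intro x hx
    exact glueFun_not_mem hx

open Classical in
/-- the glued permutation (`1` if the data condition fails) -/
noncomputable def glue {ι : Type*} (K : ι → Set ℝ) (f : ι → Equiv.Perm ℝ) : Equiv.Perm ℝ :=
  if h : Glb K f then (glue_exists K f h).choose else 1

theorem glue_spec {ι : Type*} {K : ι → Set ℝ} {f : ι → Equiv.Perm ℝ} (h : Glb K f) :
    (∀ x, glue K f x = glueFun K f x) ∧ (∀ i, ∀ x ∈ K i, glue K f x = f i x ∧ glue K f x ∈ K i) ∧
      (∀ x, (∀ i, x ∉ K i) → glue K f x = x) := by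
  have h2 : glue K f = (glue_exists K f h).choose := by rw [glue, dif_pos h]
  rw [h2]
  exact (glue_exists K f h).choose_spec

theorem glue_mem {ι : Type*} {K : ι → Set ℝ} {f : ι → Equiv.Perm ℝ} (h : Glb K f) {i : ι} {x : ℝ}
    (hx : x ∈ K i) : glue K f x = f i x := ((glue_spec h).2.1 i x hx).1

theorem glue_not_mem {ι : Type*} {K : ι → Set ℝ} {f : ι → Equiv.Perm ℝ} (h : Glb K f) {x : ℝ}
    (hx : ∀ i, x ∉ K i) : glue K f x = x := (glue_spec h).2.2 x hx

theorem glue_mem_mem {ι : Type*} {K : ι → Set ℝ} {f : ι → Equiv.Perm ℝ} (h : Glb K f) {i : ι}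
    {x : ℝ} (hx : x ∈ K i) : glue K f x ∈ K i := ((glue_spec h).2.1 i x hx).2

/-- uniqueness of the glued permutation -/
theorem glue_unique {ι : Type*} {K : ι → Set ℝ} {f : ι → Equiv.Perm ℝ} (h : Glb K f)
    {P : Equiv.Perm ℝ} (h1 : ∀ i, ∀ x ∈ K i, P x = f i x) (h2 : ∀ x, (∀ i, x ∉ K i) → P x = x) :
    glue K f = P := by
  ext x
  by_cases hx : ∃ i, x ∈ K i
  · obtain ⟨i, hi⟩ := hx
    rw [glue_mem h hi, h1 i x hi]
  · push Not at hx
    rw [glue_not_mem h hx, h2 x hx]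

theorem Glb.mul {ι : Type*} {K : ι → Set ℝ} {f g : ι → Equiv.Perm ℝ} (hf : Glb K f)
    (hg : Glb K g) : Glb K (fun i => f i * g i) ∧ glue K (fun i => f i * g i) =
      glue K f * glue K g := by
  have h : Glb K (fun i => f i * g i) := ⟨hf.1, fun i x hx => by
    rw [Equiv.Perm.mul_apply, hg.2 i x hx, hf.2 i x hx]⟩
  refine ⟨h, glue_unique h ?_ ?_⟩
  · intro i x hx
    rw [Equiv.Perm.mul_apply, Equiv.Perm.mul_apply, glue_mem hf (glue_mem_mem hg hx),
      glue_mem hg hx]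
  · intro x hx
    rw [Equiv.Perm.mul_apply, glue_not_mem hg hx, glue_not_mem hf hx]

theorem Glb.inv {ι : Type*} {K : ι → Set ℝ} {f : ι → Equiv.Perm ℝ} (hf : Glb K f) :
    Glb K (fun i => (f i)⁻¹) ∧ glue K (fun i => (f i)⁻¹) = (glue K f)⁻¹ := by
  have h : Glb K (fun i => (f i)⁻¹) := ⟨hf.1, fun i x hx => perm_inv_fix (hf.2 i) hx⟩
  refine ⟨h, glue_unique h ?_ ?_⟩
  · intro i x hx
    rw [Equiv.Perm.inv_eq_iff_eq]
    have h1 : (f i)⁻¹ x ∈ K i := perm_maps (fun y hy => perm_inv_fix (hf.2 i) hy) hx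
    rw [glue_mem hf h1, perm_self_inv]
  · intro x hx
    rw [Equiv.Perm.inv_eq_iff_eq, glue_not_mem hf hx]

theorem Glb.comm {ι : Type*} {K : ι → Set ℝ} {f g : ι → Equiv.Perm ℝ} (hf : Glb K f)
    (hg : Glb K g) : Glb K (fun i => comm (f i) (g i)) ∧ glue K (fun i => comm (f i) (g i)) =
      comm (glue K f) (glue K g) := by
  have h1 := hf.mul hg
  have h2 := h1.1.mul hf.inv.1
  have h3 := h2.1.mul hg.inv.1
  refine ⟨h3.1, ?_⟩
  show glue K (fun i => f i * g i * (f i)⁻¹ * (g i)⁻¹) = _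
  rw [h3.2, h2.2, h1.2, hf.inv.2, hg.inv.2]
  rfl

/-- conjugation of a glued permutation -/
theorem Glb.conj {ι : Type*} {K : ι → Set ℝ} {f : ι → Equiv.Perm ℝ} (hf : Glb K f)
    (D : Equiv.Perm ℝ) : Glb (fun i => {x | D x ∈ K i}) (fun i => D⁻¹ * f i * D) ∧
      glue (fun i => {x | D x ∈ K i}) (fun i => D⁻¹ * f i * D) = D⁻¹ * glue K f * D := by
  have h : Glb (fun i => {x | D x ∈ K i}) (fun i => D⁻¹ * f i * D) := by
    refine ⟨fun i j x hi hj => hf.1 i j _ hi hj, fun i x hx => ?_⟩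
    rw [Equiv.Perm.mul_apply, Equiv.Perm.mul_apply, hf.2 i _ hx, perm_inv_self]
  refine ⟨h, glue_unique h ?_ ?_⟩
  · intro i x hx
    rw [Equiv.Perm.mul_apply, Equiv.Perm.mul_apply, Equiv.Perm.mul_apply, Equiv.Perm.mul_apply,
      glue_mem hf (show D x ∈ K i from hx)]
  · intro x hx
    rw [Equiv.Perm.mul_apply, Equiv.Perm.mul_apply, glue_not_mem hf (fun i => hx i),
      perm_inv_self]

/-- a glued permutation and its inverse move points inside one piece -/
theorem glue_move {ι : Type*} {K : ι → Set ℝ} {f : ι → Equiv.Perm ℝ} (h : Glb K f) (x : ℝ) :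
    (glue K f x = x ∨ ∃ i, x ∈ K i ∧ glue K f x ∈ K i) ∧
      ((glue K f)⁻¹ x = x ∨ ∃ i, x ∈ K i ∧ (glue K f)⁻¹ x ∈ K i) := by
  by_cases hx : ∃ i, x ∈ K i
  · obtain ⟨i, hi⟩ := hx
    refine ⟨Or.inr ⟨i, hi, glue_mem_mem h hi⟩, Or.inr ⟨i, hi, ?_⟩⟩
    rw [← h.inv.2]
    exact glue_mem_mem h.inv.1 hi
  · push Not at hx
    refine ⟨Or.inl (glue_not_mem h hx), Or.inl ?_⟩
    rw [← h.inv.2]
    exact glue_not_mem h.inv.1 hx

/-- Abstract extraction: `A` is glued from pieces `KA i`, `C` from `KC i`; `good` pieces are those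
with `p i`. -/
theorem extract_aux {ι : Type*} (p : ι → Prop) (KA KC : ι → Set ℝ) (a c : ι → Equiv.Perm ℝ)
    (K : ι → Set ℝ) (hKA : ∀ i, p i → KA i = K i) (hKC : ∀ i, p i → KC i = K i)
    (hA : Glb KA a) (hC : Glb KC c)
    (hsep : ∀ᶠ u in atTop, ∀ i j, u ∈ KA i → u ∈ KC j → p i ∧ p j)
    (hfA : ∀ R, ∃ U, ∀ i, ∀ u ≤ R, u ∈ KA i → ∀ v ∈ KA i, v ≤ U)
    (hfC : ∀ R, ∃ U, ∀ i, ∀ u ≤ R, u ∈ KC i → ∀ v ∈ KC i, v ≤ U) :
    ∀ᶠ u in atTop, comm (glue KA a) (glue KC c) u =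
      comm (glue (fun i : {i // p i} => K i.1) (fun i => a i.1))
        (glue (fun i : {i // p i} => K i.1) (fun i => c i.1)) u := by
  set K' : {i // p i} → Set ℝ := fun i => K i.1 with hK'
  have hA' : Glb K' (fun i => a i.1) := by
    refine ⟨fun i j x hi hj => Subtype.ext (hA.1 i.1 j.1 x ?_ ?_), fun i x hx => hA.2 i.1 x ?_⟩
    · rw [hKA i.1 i.2]; exact hi
    · rw [hKA j.1 j.2]; exact hj
    · rw [hKA i.1 i.2]; exact hx
  have hC' : Glb K' (fun i => c i.1) := by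
    refine ⟨fun i j x hi hj => Subtype.ext (hC.1 i.1 j.1 x ?_ ?_), fun i x hx => hC.2 i.1 x ?_⟩
    · rw [hKC i.1 i.2]; exact hi
    · rw [hKC j.1 j.2]; exact hj
    · rw [hKC i.1 i.2]; exact hx
  obtain ⟨U0, hU0⟩ := eventually_atTop.1 hsep
  -- escape
  have esc : ∀ (KK : ι → Set ℝ) (f : ι → Equiv.Perm ℝ), Glb KK f →
      (∀ R, ∃ U, ∀ i, ∀ u ≤ R, u ∈ KK i → ∀ v ∈ KK i, v ≤ U) → ∀ R, ∃ U, ∀ u > U,
        R < u ∧ R < glue KK f u ∧ R < (glue KK f)⁻¹ u := by
    intro KK f h hf R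
    obtain ⟨U, hU⟩ := hf R
    refine ⟨max U R, fun u hu => ?_⟩
    have h1 : U < u := lt_of_le_of_lt (le_max_left _ _) hu
    have h2 : R < u := lt_of_le_of_lt (le_max_right _ _) hu
    obtain ⟨m1, m2⟩ := glue_move h u
    refine ⟨h2, ?_, ?_⟩
    · rcases m1 with m1 | ⟨i, hi, hi'⟩
      · rw [m1]; exact h2
      · by_contra hlt
        have := hU i _ (not_lt.1 hlt) hi' u hi
        linarith
    · rcases m2 with m2 | ⟨i, hi, hi'⟩
      · rw [m2]; exact h2
      · by_contra hlt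
        have := hU i _ (not_lt.1 hlt) hi' u hi
        linarith
  obtain ⟨U1, hU1⟩ := esc KC c hC hfC U0
  obtain ⟨U2, hU2⟩ := esc KA a hA hfA U1
  obtain ⟨U3, hU3⟩ := esc KC c hC hfC U2
  have key : ∀ u > U3, comm (glue KA a) (glue KC c) u =
      comm (glue K' (fun i => a i.1)) (glue K' (fun i => c i.1)) u := by
    intro u hu
    set A := glue KA a with hAdef
    set C := glue KC c with hCdef
    set A' := glue K' (fun i => a i.1) with hA'def
    set C' := glue K' (fun i => c i.1) with hC'def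
    -- behaviour of a good point
    have gA : ∀ v, (∀ i, v ∈ KA i → p i) → A v = A' v ∧ A⁻¹ v = A'⁻¹ v := by
      intro v hv
      by_cases hx : ∃ i, v ∈ KA i
      · obtain ⟨i, hi⟩ := hx
        have hpi := hv i hi
        have hi' : v ∈ K' ⟨i, hpi⟩ := by show v ∈ K i; rw [← hKA i hpi]; exact hi
        refine ⟨?_, ?_⟩
        · rw [hAdef, hA'def, glue_mem hA hi, glue_mem hA' hi']
        · rw [hAdef, hA'def, ← hA.inv.2, ← hA'.inv.2, glue_mem hA.inv.1 hi,
            glue_mem hA'.inv.1 hi']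
      · push Not at hx
        have hx' : ∀ i, v ∉ K' i := by
          intro i hi
          exact hx i.1 (by rw [hKA i.1 i.2]; exact hi)
        refine ⟨?_, ?_⟩
        · rw [hAdef, hA'def, glue_not_mem hA hx, glue_not_mem hA' hx']
        · rw [hAdef, hA'def, ← hA.inv.2, ← hA'.inv.2, glue_not_mem hA.inv.1 hx,
            glue_not_mem hA'.inv.1 hx']
    have gC : ∀ v, (∀ i, v ∈ KC i → p i) → C v = C' v ∧ C⁻¹ v = C'⁻¹ v := by
      intro v hv
      by_cases hx : ∃ i, v ∈ KC i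
      · obtain ⟨i, hi⟩ := hx
        have hpi := hv i hi
        have hi' : v ∈ K' ⟨i, hpi⟩ := by show v ∈ K i; rw [← hKC i hpi]; exact hi
        refine ⟨?_, ?_⟩
        · rw [hCdef, hC'def, glue_mem hC hi, glue_mem hC' hi']
        · rw [hCdef, hC'def, ← hC.inv.2, ← hC'.inv.2, glue_mem hC.inv.1 hi,
            glue_mem hC'.inv.1 hi']
      · push Not at hx
        have hx' : ∀ i, v ∉ K' i := by
          intro i hi
          exact hx i.1 (by rw [hKC i.1 i.2]; exact hi)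
        refine ⟨?_, ?_⟩
        · rw [hCdef, hC'def, glue_not_mem hC hx, glue_not_mem hC' hx']
        · rw [hCdef, hC'def, ← hC.inv.2, ← hC'.inv.2, glue_not_mem hC.inv.1 hx,
            glue_not_mem hC'.inv.1 hx']
    -- bad points are fixed
    have bA : ∀ v i, v ∈ KA i → ¬ p i → A' v = v ∧ A'⁻¹ v = v := by
      intro v i hi hpi
      have hx' : ∀ j, v ∉ K' j := by
        intro j hj
        have : v ∈ KA j.1 := by rw [hKA j.1 j.2]; exact hj
        exact hpi (by rw [hA.1 i j.1 v hi this]; exact j.2)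
      exact ⟨glue_not_mem hA' hx', by rw [hA'def, ← hA'.inv.2]; exact glue_not_mem hA'.inv.1 hx'⟩
    have bC : ∀ v i, v ∈ KC i → ¬ p i → C' v = v ∧ C'⁻¹ v = v := by
      intro v i hi hpi
      have hx' : ∀ j, v ∉ K' j := by
        intro j hj
        have : v ∈ KC j.1 := by rw [hKC j.1 j.2]; exact hj
        exact hpi (by rw [hC.1 i j.1 v hi this]; exact j.2)
      exact ⟨glue_not_mem hC' hx', by rw [hC'def, ← hC'.inv.2]; exact glue_not_mem hC'.inv.1 hx'⟩
    have nC : ∀ v, U0 ≤ v → ∀ i, v ∈ KA i → ¬ p i → C v = v ∧ C⁻¹ v = v := by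
      intro v hv i hi hpi
      have hx : ∀ j, v ∉ KC j := fun j hj => hpi (hU0 v hv i j hi hj).1
      exact ⟨glue_not_mem hC hx, by rw [hCdef, ← hC.inv.2]; exact glue_not_mem hC.inv.1 hx⟩
    have nA : ∀ v, U0 ≤ v → ∀ i, v ∈ KC i → ¬ p i → A v = v ∧ A⁻¹ v = v := by
      intro v hv i hi hpi
      have hx : ∀ j, v ∉ KA j := fun j hj => hpi (hU0 v hv j i hj hi).2
      exact ⟨glue_not_mem hA hx, by rw [hAdef, ← hA.inv.2]; exact glue_not_mem hA.inv.1 hx⟩
    -- the orbit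
    obtain ⟨e1, -, e2⟩ := hU3 u hu
    obtain ⟨e3, -, e4⟩ := hU2 _ e2
    obtain ⟨e5, e6, -⟩ := hU1 _ e4
    have u0 : U0 ≤ u := by
      have := (hU2 u e1).1
      have := (hU1 u this).1
      exact this.le
    have w1 : U0 ≤ C⁻¹ u := (hU1 _ e3).1.le
    have w2 : U0 ≤ A⁻¹ (C⁻¹ u) := e5.le
    have w3 : U0 ≤ C (A⁻¹ (C⁻¹ u)) := e6.le
    have hcomm : ∀ a b : Equiv.Perm ℝ, comm a b u = a (b (a⁻¹ (b⁻¹ u))) := fun a b => rfl
    rw [hcomm, hcomm]
    by_cases hbA : ∃ i, u ∈ KA i ∧ ¬ p i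
    · obtain ⟨i, hi, hpi⟩ := hbA
      have h1 := nC u u0 i hi hpi
      have h2 : A⁻¹ u ∈ KA i := by
        rw [hAdef, ← hA.inv.2]; exact glue_mem_mem hA.inv.1 hi
      have h3 : U0 ≤ A⁻¹ u := by rw [h1.2] at w2; exact w2
      have h4 := nC _ h3 i h2 hpi
      rw [h1.2, h4.1, perm_self_inv]
      have h5 := bA u i hi hpi
      have h6 : C' u = u ∧ C'⁻¹ u = u := by
        have hx' : ∀ j, u ∉ K' j := by
          intro j hj
          have : u ∈ KC j.1 := by rw [hKC j.1 j.2]; exact hj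
          exact hpi (hU0 u u0 i j.1 hi this).1
        exact ⟨glue_not_mem hC' hx', by rw [hC'def, ← hC'.inv.2]; exact glue_not_mem hC'.inv.1 hx'⟩
      rw [h6.2, h5.2, h6.1, h5.1]
    by_cases hbC : ∃ i, u ∈ KC i ∧ ¬ p i
    · obtain ⟨i, hi, hpi⟩ := hbC
      have h2 : C⁻¹ u ∈ KC i := by
        rw [hCdef, ← hC.inv.2]; exact glue_mem_mem hC.inv.1 hi
      have h4 := nA _ w1 i h2 hpi
      rw [h4.2, perm_self_inv, (nA u u0 i hi hpi).1]
      have h5 := bC u i hi hpi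
      have h6 : A' u = u ∧ A'⁻¹ u = u := by
        have hx' : ∀ j, u ∉ K' j := by
          intro j hj
          have : u ∈ KA j.1 := by rw [hKA j.1 j.2]; exact hj
          exact hpi (hU0 u u0 j.1 i this hi).2
        exact ⟨glue_not_mem hA' hx', by rw [hA'def, ← hA'.inv.2]; exact glue_not_mem hA'.inv.1 hx'⟩
      rw [h5.2, h6.2, h5.1, h6.1]
    push Not at hbA hbC
    -- good points
    have good_stepC : ∀ v w, U0 ≤ w → (∀ i, v ∈ KA i → p i) → (∀ i, v ∈ KC i → p i) →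
        (w = v ∨ ∃ i, v ∈ KC i ∧ w ∈ KC i) → (∀ i, w ∈ KA i → p i) ∧ (∀ i, w ∈ KC i → p i) := by
      intro v w hw g1 g2 hm
      rcases hm with rfl | ⟨i, hi, hi'⟩
      · exact ⟨g1, g2⟩
      · refine ⟨fun j hj => (hU0 w hw j i hj hi').1, fun j hj => ?_⟩
        rw [hC.1 j i w hj hi']; exact g2 i hi
    have good_stepA : ∀ v w, U0 ≤ w → (∀ i, v ∈ KA i → p i) → (∀ i, v ∈ KC i → p i) →
        (w = v ∨ ∃ i, v ∈ KA i ∧ w ∈ KA i) → (∀ i, w ∈ KA i → p i) ∧ (∀ i, w ∈ KC i → p i) := by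
      intro v w hw g1 g2 hm
      rcases hm with rfl | ⟨i, hi, hi'⟩
      · exact ⟨g1, g2⟩
      · refine ⟨fun j hj => ?_, fun j hj => (hU0 w hw i j hi' hj).2⟩
        rw [hA.1 j i w hj hi']; exact g1 i hi
    have g0 := gC u hbC
    obtain ⟨k1, k2⟩ := good_stepC u (C⁻¹ u) w1 hbA hbC (glue_move hC u).2
    have g1 := gA _ k1
    obtain ⟨k3, k4⟩ := good_stepA (C⁻¹ u) (A⁻¹ (C⁻¹ u)) w2 k1 k2 (glue_move hA _).2
    have g2 := gC _ k4
    obtain ⟨k5, k6⟩ := good_stepC _ (C (A⁻¹ (C⁻¹ u))) w3 k3 k4 (glue_move hC _).1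
    have g3 := gA _ k5
    rw [g3.1, g2.1, g1.2, g0.2]
  filter_upwards [eventually_gt_atTop U3] with u hu using key u hu

/-- G2: extraction. `A`, `C` are the glued stores, with homotheties `lam (st i)`, `mu (st i)`. -/
theorem extract {ι : Type*} (st : ι → ℕ) (K : ι → Set ℝ) (lam mu : ℕ → ℝ)
    (hl : ∀ s, lam s ≠ 0) (hm : ∀ s, mu s ≠ 0) (a c : ι → Equiv.Perm ℝ)
    (hA : Glb (fun i => {x | x / lam (st i) ∈ K i}) (fun i => cj (lam (st i)) (hl _) (a i)))
    (hC : Glb (fun i => {x | x / mu (st i) ∈ K i}) (fun i => cj (mu (st i)) (hm _) (c i)))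
    (s : ℕ)
    (hsep : ∀ᶠ u in atTop, ∀ i j, lam s * u / lam (st i) ∈ K i → mu s * u / mu (st j) ∈ K j →
      st i = s ∧ st j = s)
    (hfA : ∀ R, ∃ U, ∀ i, ∀ u ≤ R, lam s * u / lam (st i) ∈ K i →
      ∀ v, lam s * v / lam (st i) ∈ K i → v ≤ U)
    (hfC : ∀ R, ∃ U, ∀ i, ∀ u ≤ R, mu s * u / mu (st i) ∈ K i →
      ∀ v, mu s * v / mu (st i) ∈ K i → v ≤ U) :
    ∀ᶠ u in atTop,
      comm ((Dil (lam s) (hl s))⁻¹ * glue (fun i => {x | x / lam (st i) ∈ K i})
          (fun i => cj (lam (st i)) (hl _) (a i)) * Dil (lam s) (hl s))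
        ((Dil (mu s) (hm s))⁻¹ * glue (fun i => {x | x / mu (st i) ∈ K i})
          (fun i => cj (mu (st i)) (hm _) (c i)) * Dil (mu s) (hm s)) u =
      comm (glue (fun i : {i // st i = s} => K i.1) (fun i => a i.1))
        (glue (fun i : {i // st i = s} => K i.1) (fun i => c i.1)) u := by
  have cA := hA.conj (Dil (lam s) (hl s))
  have cC := hC.conj (Dil (mu s) (hm s))
  rw [← cA.2, ← cC.2]
  have hKA : ∀ i, st i = s → {x : ℝ | Dil (lam s) (hl s) x ∈ {x | x / lam (st i) ∈ K i}} = K i := by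
    intro i hi
    ext x
    simp only [Set.mem_ofPred_eq, Dil_apply]
    rw [hi, mul_div_cancel_left₀ _ (hl s)]
  have hKC : ∀ i, st i = s → {x : ℝ | Dil (mu s) (hm s) x ∈ {x | x / mu (st i) ∈ K i}} = K i := by
    intro i hi
    ext x
    simp only [Set.mem_ofPred_eq, Dil_apply]
    rw [hi, mul_div_cancel_left₀ _ (hm s)]
  have main := extract_aux (fun i => st i = s) _ _ _ _ K hKA hKC cA.1 cC.1 hsep hfA hfC
  have eA : (fun i : {i // st i = s} => (Dil (lam s) (hl s))⁻¹ * cj (lam (st i.1)) (hl _) (a i.1) *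
      Dil (lam s) (hl s)) = fun i : {i // st i = s} => a i.1 := by
    funext i
    obtain ⟨i, rfl⟩ := i
    simp [cj, mul_assoc]
  have eC : (fun i : {i // st i = s} => (Dil (mu s) (hm s))⁻¹ * cj (mu (st i.1)) (hm _) (c i.1) *
      Dil (mu s) (hm s)) = fun i : {i // st i = s} => c i.1 := by
    funext i
    obtain ⟨i, rfl⟩ := i
    simp [cj, mul_assoc]
  rw [eA, eC] at main
  exact main

/-- local form of a locally finite store -/
theorem glue_local {ι : Type*} (st : ι → ℕ) (lo hi : ι → ℝ) (lam : ℕ → ℝ)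
    (hl : ∀ s, 1 ≤ lam s) (f : ι → Equiv.Perm ℝ)
    (hA : Glb (fun i => {x | x / lam (st i) ∈ Set.Icc (lo i) (hi i)}) f)
    (hlohi : ∀ i, 0 < lo i ∧ lo i < hi i)
    (hfin : ∀ R, {i | lo i ≤ R}.Finite) (x : ℝ) :
    (∃ i, x / lam (st i) ∈ Set.Icc (lo i) (hi i) ∧
      glue (fun i => {x | x / lam (st i) ∈ Set.Icc (lo i) (hi i)}) f =ᶠ[𝓝 x] f i) ∨
    glue (fun i => {x | x / lam (st i) ∈ Set.Icc (lo i) (hi i)}) f =ᶠ[𝓝 x] fun y => y := by
  classical
  set K : ι → Set ℝ := fun i => {x | x / lam (st i) ∈ Set.Icc (lo i) (hi i)} with hK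
  have hcl : ∀ i, IsClosed (K i) := by
    intro i
    have : K i = (fun x => x / lam (st i)) ⁻¹' Set.Icc (lo i) (hi i) := rfl
    rw [this]
    exact isClosed_Icc.preimage (continuous_id.div_const _)
  -- pieces near `x`
  have hbig : ∀ i, ∀ y < x + 1, y ∈ K i → lo i ≤ max (x + 1) 0 := by
    intro i y hy hyi
    have h1 : lo i ≤ y / lam (st i) := hyi.1
    have h2 : 0 < lam (st i) := by linarith [hl (st i)]
    have h3 : lo i * lam (st i) ≤ y := by rwa [le_div_iff₀ h2] at h1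
    have h4 : lo i ≤ lo i * lam (st i) := by nlinarith [hl (st i), (hlohi i).1]
    exact le_trans (by linarith) (le_max_left _ _)
  set F := (hfin (max (x + 1) 0)).toFinset with hF
  have hnear : ∀ G : Finset ι, (∀ i ∈ G, x ∉ K i) → ∀ᶠ y in 𝓝 x, ∀ i ∈ G, y ∉ K i := by
    intro G hG
    rw [Filter.eventually_all_finset]
    intro i hi'
    exact (hcl i).isOpen_compl.mem_nhds (hG i hi')
  have hlt : ∀ᶠ y in 𝓝 x, y < x + 1 := gt_mem_nhds (by linarith)
  by_cases hx : ∃ i, x ∈ K i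
  · obtain ⟨i, hi'⟩ := hx
    refine Or.inl ⟨i, hi', ?_⟩
    have h1 := hnear (F.erase i) (fun j hj hxj => (Finset.mem_erase.1 hj).1 (hA.1 j i x hxj hi'))
    filter_upwards [h1, hlt] with y hy hy1
    by_cases hyi : y ∈ K i
    · exact glue_mem hA hyi
    · have : ∀ j, y ∉ K j := by
        intro j hj
        by_cases hji : j = i
        · rw [hji] at hj; exact hyi hj
        · refine hy j (Finset.mem_erase.2 ⟨hji, ?_⟩) hj
          rw [hF, Set.Finite.mem_toFinset]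
          exact hbig j y hy1 hj
      rw [glue_not_mem hA this, hA.2 i y hyi]
  · push Not at hx
    right
    have h1 := hnear F (fun j _ => hx j)
    filter_upwards [h1, hlt] with y hy hy1
    refine glue_not_mem hA (fun j hj => hy j ?_ hj)
    rw [hF, Set.Finite.mem_toFinset]
    exact hbig j y hy1 hj

/-- G3: regularity of a store: locally finite union of intervals, sizes tending to zero -/
theorem glue_adm {ι : Type*} (st : ι → ℕ) (lo hi : ι → ℝ) (lam : ℕ → ℝ)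
    (hl : ∀ s, 1 ≤ lam s) (hl0 : ∀ s, lam s ≠ 0) (a : ι → Equiv.Perm ℝ)
    (hA : Glb (fun i => {x | x / lam (st i) ∈ Set.Icc (lo i) (hi i)})
      (fun i => cj (lam (st i)) (hl0 _) (a i)))
    (hlohi : ∀ i, 0 < lo i ∧ lo i < hi i)
    (hfin : ∀ R, {i | lo i ≤ R}.Finite)
    (hC2 : ∀ i, ContDiff ℝ 2 (a i)) (b0 b1 b2 : ι → ℝ)
    (hb : ∀ i x, |a i x - x| ≤ b0 i ∧ |deriv (a i) x - 1| ≤ b1 i ∧ |deriv (deriv (a i)) x| ≤ b2 i)
    (hsmall : ∀ ε > 0, {i | ¬ (lam (st i) * b0 i ≤ ε ∧ lam (st i) * hi i * b1 i ≤ ε ∧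
      lam (st i) * hi i ^ 2 * b2 i ≤ ε)}.Finite) :
    Adm 1 0 (glue (fun i => {x | x / lam (st i) ∈ Set.Icc (lo i) (hi i)})
      (fun i => cj (lam (st i)) (hl0 _) (a i))) := by
  set F : ℝ → ℝ := ⇑(glue (fun i => {x | x / lam (st i) ∈ Set.Icc (lo i) (hi i)})
      (fun i => cj (lam (st i)) (hl0 _) (a i))) with hF
  have hloc : ∀ x, (∃ i, x / lam (st i) ∈ Set.Icc (lo i) (hi i) ∧
      F =ᶠ[𝓝 x] (cj (lam (st i)) (hl0 _) (a i) : ℝ → ℝ)) ∨ F =ᶠ[𝓝 x] fun y => y :=
    glue_local st lo hi lam hl _ hA hlohi hfin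
  -- derivatives of a piece
  have hcj : ∀ i, (cj (lam (st i)) (hl0 _) (a i) : ℝ → ℝ) = fun y => lam (st i) * a i (y / lam (st i)) :=
    fun i => funext fun y => cj_apply _ _ _ _
  have hcjs : ∀ i, ContDiff ℝ 2 (cj (lam (st i)) (hl0 _) (a i) : ℝ → ℝ) := by
    intro i
    rw [hcj]
    exact contDiff_const.mul ((hC2 i).comp (contDiff_id.div_const _))
  have hcjd : ∀ i, deriv (cj (lam (st i)) (hl0 _) (a i) : ℝ → ℝ) =
      fun y => deriv (a i) (y / lam (st i)) := by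
    intro i
    funext y
    have h1 : HasDerivAt (a i : ℝ → ℝ) (deriv (a i) (y / lam (st i))) (y / lam (st i)) :=
      ((hC2 i).differentiable (by norm_num) _).hasDerivAt
    have h2 : HasDerivAt (fun y : ℝ => y / lam (st i)) (1 / lam (st i)) y :=
      (hasDerivAt_id y).div_const _
    have h3 := (h1.comp y h2).const_mul (lam (st i))
    rw [hcj]
    refine (HasDerivAt.deriv h3).trans ?_
    have := hl0 (st i)
    field_simp
  have hcjdd : ∀ i y, deriv (deriv (cj (lam (st i)) (hl0 _) (a i) : ℝ → ℝ)) y =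
      deriv (deriv (a i)) (y / lam (st i)) / lam (st i) := by
    intro i y
    rw [hcjd]
    have h1 : HasDerivAt (deriv (a i : ℝ → ℝ)) (deriv (deriv (a i)) (y / lam (st i)))
        (y / lam (st i)) := by
      have hd : ContDiff ℝ 1 (deriv (a i : ℝ → ℝ)) := by
        have h12 : (1 : WithTop ℕ∞) + 1 = 2 := by norm_num
        have h11 : ContDiff ℝ (1 + 1) (a i : ℝ → ℝ) := by rw [h12]; exact hC2 i
        exact (contDiff_succ_iff_deriv.1 h11).2.2
      exact (hd.differentiable (by norm_num) _).hasDerivAt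
    have h2 : HasDerivAt (fun y : ℝ => y / lam (st i)) (1 / lam (st i)) y :=
      (hasDerivAt_id y).div_const _
    have h3 := h1.comp y h2
    refine (HasDerivAt.deriv h3).trans ?_
    ring
  -- the main estimate
  have est : ∀ ε > 0, ∀ᶠ x in atTop, |F x - x| ≤ ε ∧ |x * (deriv F x - 1)| ≤ ε ∧
      |x ^ 2 * deriv (deriv F) x| ≤ ε := by
    intro ε hε
    set E := (hsmall ε hε).toFinset with hE
    obtain ⟨X, hX⟩ : ∃ X : ℝ, ∀ i ∈ E, lam (st i) * hi i ≤ X := by
      obtain ⟨X, hX⟩ := (E.image fun i => lam (st i) * hi i).bddAbove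
      exact ⟨X, fun i hi' => hX (Finset.mem_coe.2 (Finset.mem_image_of_mem _ hi'))⟩
    filter_upwards [eventually_gt_atTop X, eventually_gt_atTop 0] with x hx hx0
    rcases hloc x with ⟨i, hxi, he⟩ | he
    · have hlam : 0 < lam (st i) := by linarith [hl (st i)]
      have hxle : x ≤ lam (st i) * hi i := by
        have := hxi.2
        rw [div_le_iff₀ hlam] at this
        linarith
      have hiE : i ∉ E := fun h => by linarith [hX i h]
      have hgood : lam (st i) * b0 i ≤ ε ∧ lam (st i) * hi i * b1 i ≤ ε ∧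
          lam (st i) * hi i ^ 2 * b2 i ≤ ε := by
        by_contra hcon
        exact hiE (by rw [hE, Set.Finite.mem_toFinset]; exact hcon)
      obtain ⟨hb0, hb1, hb2⟩ := hb i (x / lam (st i))
      have e0 : F x = lam (st i) * a i (x / lam (st i)) := by
        rw [he.eq_of_nhds, cj_apply]
      have e1 : deriv F x = deriv (a i) (x / lam (st i)) := by
        rw [he.deriv_eq, hcjd]
      have e2 : deriv (deriv F) x = deriv (deriv (a i)) (x / lam (st i)) / lam (st i) := by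
        rw [he.deriv.deriv_eq, hcjdd]
      have hb1' : 0 ≤ b1 i := le_trans (abs_nonneg _) hb1
      have hb2' : 0 ≤ b2 i := le_trans (abs_nonneg _) hb2
      refine ⟨?_, ?_, ?_⟩
      · have : F x - x = lam (st i) * (a i (x / lam (st i)) - x / lam (st i)) := by
          rw [e0]; field_simp
        rw [this, abs_mul, abs_of_pos hlam]
        exact le_trans (mul_le_mul_of_nonneg_left hb0 hlam.le) hgood.1
      · rw [e1, abs_mul, abs_of_pos hx0]
        calc x * |deriv (a i) (x / lam (st i)) - 1| ≤ (lam (st i) * hi i) * b1 i :=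
              mul_le_mul hxle hb1 (abs_nonneg _) (by linarith)
          _ ≤ ε := hgood.2.1
      · rw [e2, abs_mul, abs_div, abs_of_pos hlam, abs_of_nonneg (sq_nonneg x)]
        have h1 : x ^ 2 ≤ (lam (st i) * hi i) ^ 2 := pow_le_pow_left₀ hx0.le hxle 2
        calc x ^ 2 * (|deriv (deriv (a i)) (x / lam (st i))| / lam (st i))
            ≤ (lam (st i) * hi i) ^ 2 * (b2 i / lam (st i)) :=
              mul_le_mul h1 (div_le_div_of_nonneg_right hb2 hlam.le)
                (div_nonneg (abs_nonneg _) hlam.le) (sq_nonneg _)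
          _ = lam (st i) * hi i ^ 2 * b2 i := by field_simp
          _ ≤ ε := hgood.2.2
    · have e0 : F x = x := he.eq_of_nhds
      have e1 : deriv F x = 1 := by rw [he.deriv_eq]; exact deriv_id x
      have e2 : deriv (deriv F) x = 0 := by
        rw [he.deriv.deriv_eq]
        have : deriv (fun y : ℝ => y) = fun _ => 1 := funext fun y => deriv_id y
        rw [this]; simp
      rw [e0, e1, e2]
      simp only [sub_self, mul_zero, abs_zero]
      exact ⟨hε.le, hε.le, hε.le⟩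
  refine ⟨Eventually.of_forall fun x => ?_, ?_, ?_, ?_⟩
  · rcases hloc x with ⟨i, -, he⟩ | he
    · exact ((hcjs i).contDiffAt).congr_of_eventuallyEq he
    · exact contDiffAt_id.congr_of_eventuallyEq he
  · rw [Metric.tendsto_atTop']
    intro ε hε
    obtain ⟨N, hN⟩ := eventually_atTop.1 (est (ε / 2) (by linarith))
    refine ⟨N, fun n hn => ?_⟩
    rw [Real.dist_eq, sub_zero, one_mul]
    linarith [(hN n hn.le).1]
  · rw [Metric.tendsto_atTop']
    intro ε hε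
    obtain ⟨N, hN⟩ := eventually_atTop.1 (est (ε / 2) (by linarith))
    refine ⟨N, fun n hn => ?_⟩
    rw [Real.dist_eq, sub_zero]
    linarith [(hN n hn.le).2.1]
  · rw [Metric.tendsto_atTop']
    intro ε hε
    obtain ⟨N, hN⟩ := eventually_atTop.1 (est (ε / 2) (by linarith))
    refine ⟨N, fun n hn => ?_⟩
    rw [Real.dist_eq, sub_zero]
    linarith [(hN n hn.le).2.2]

end Pool.Agent.Germ
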